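import Pool.Agent.H44R3.Upper
import Pool.Agent.H44R3.Lower

/-!
The least number `N` such that every nontrivial homeomorphism of the 2-sphere in the component of
the identity is a product of exactly `N` conjugates of every other one equals `3`.
-/

open Set Filter Topology Metric
open scoped Real OnePoint unitInterval

namespace Pool.Agent.Results.MP_c6d336_gt.ThreeConjugates

open Pool.Agent.H44R3

/-- The 2-sphere: the unit sphere of Euclidean 3-space. -/
abbrev Sph : Type := Metric.sphere (0 : EuclideanSpace ℝ (Fin 3)) 1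

/-- The compact-open topology on the group `Homeo(X)`: the topology induced by the inclusion in
the space of continuous self-maps of `X` with the compact-open topology. -/
@[instance_reducible] def compactOpenTopology (X : Type) [TopologicalSpace X] :
    TopologicalSpace (X ≃ₜ X) :=
  TopologicalSpace.induced (fun h : X ≃ₜ X => (h : C(X, X))) ContinuousMap.compactOpen

/-- The group `G`: the path component of the identity of `Homeo(X)`. -/
def G (X : Type) [TopologicalSpace X] : Set (X ≃ₜ X) :=
  {h | @Joined (X ≃ₜ X) (compactOpenTopology X) 1 h}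

/-- The property `P(n)` for a space `X`: for all `A, B` in `G` different from the identity there
are homeomorphisms `H₁, …, Hₙ` of `X` with `B = (H₁ A H₁⁻¹) (H₂ A H₂⁻¹) ⋯ (Hₙ A Hₙ⁻¹)`. -/
def P (X : Type) [TopologicalSpace X] (n : ℕ) : Prop :=
  ∀ A ∈ G X, ∀ B ∈ G X, A ≠ 1 → B ≠ 1 → ∃ H : Fin n → (X ≃ₜ X),
    B = (List.ofFn fun i => H i * A * (H i)⁻¹).prod

section Transfer

variable {X Y : Type} [TopologicalSpace X] [TopologicalSpace Y]

/-- Conjugation by a homeomorphism of spaces. -/
def cj (e : X ≃ₜ Y) : (X ≃ₜ X) ≃* (Y ≃ₜ Y) where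
  toFun h := e.symm.trans (h.trans e)
  invFun h := e.trans (h.trans e.symm)
  left_inv h := by ext x; simp
  right_inv h := by ext x; simp
  map_mul' f g := by ext x; simp [Homeomorph.mul_apply]

theorem joined_cj (e : X ≃ₜ Y) {h : X ≃ₜ X} (hh : InIdComp h) : InIdComp (cj e h) := by
  let _ := homeoTop X
  let _ := homeoTop Y
  have hc : Continuous (fun h : X ≃ₜ X => cj e h) := by
    rw [continuous_induced_rng]
    have h1 : Continuous (fun h : X ≃ₜ X => (h : C(X, X))) := continuous_induced_dom
    have h2 : Continuous (fun h : X ≃ₜ X =>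
        ((e : C(X, Y)).comp ((h : C(X, X)).comp (e.symm : C(Y, X))))) :=
      (ContinuousMap.continuous_postcomp (e : C(X, Y))).comp
        ((ContinuousMap.continuous_precomp (e.symm : C(Y, X))).comp h1)
    exact h2
  have := Joined.map hh hc
  rwa [map_one] at this

end Transfer

/-- The Riemann sphere is homeomorphic to the unit sphere of Euclidean 3-space. -/
noncomputable def toSph : RS ≃ₜ Sph :=
  onePointEquivSphereOfFinrankEq (by simp)

theorem mem_G_iff {h : Sph ≃ₜ Sph} : h ∈ G Sph ↔ InIdComp h := Iff.rfl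

theorem cj_mem_G {h : RS ≃ₜ RS} (hh : InIdComp h) : cj toSph h ∈ G Sph := joined_cj toSph hh

theorem P_three : P Sph 3 := by
  intro A hA B hB hA1 hB1
  have hA' : InIdComp (cj toSph.symm A) := joined_cj toSph.symm hA
  have hB' : InIdComp (cj toSph.symm B) := joined_cj toSph.symm hB
  have hcc : ∀ h : Sph ≃ₜ Sph, cj toSph (cj toSph.symm h) = h := by
    intro h
    ext x
    simp [cj]
  have hne : ∀ h : Sph ≃ₜ Sph, h ≠ 1 → cj toSph.symm h ≠ 1 := by
    intro h h1 h2
    apply h1
    rw [← hcc h, h2, map_one]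
  obtain ⟨H₁, H₂, H₃, e⟩ := three_conj hA' hB' (hne A hA1) (hne B hB1)
  refine ⟨![cj toSph H₁, cj toSph H₂, cj toSph H₃], ?_⟩
  have e' := congrArg (cj toSph) e
  simp only [map_mul, map_inv, hcc] at e'
  rw [e']
  simp [List.ofFn_succ, mul_assoc]

theorem not_P_one : ¬ P Sph 1 := by
  intro h
  have hne : ∀ h : RS ≃ₜ RS, h ≠ 1 → cj toSph h ≠ 1 := by
    intro h h1 h2
    exact h1 ((cj toSph).injective (h2.trans (map_one (cj toSph)).symm))
  obtain ⟨H, e⟩ := h _ (cj_mem_G inIdComp_neg) _ (cj_mem_G inIdComp_Bq) (hne _ An_ne_one)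
    (hne _ Bq_ne_one)
  obtain ⟨K, hK⟩ := (cj toSph).surjective (H 0)
  apply not_one_conj K
  apply (cj toSph).injective
  rw [e]
  simp only [map_mul, map_inv, hK]
  simp [List.ofFn_succ, An]

theorem not_P_two : ¬ P Sph 2 := by
  intro h
  have hne : ∀ h : RS ≃ₜ RS, h ≠ 1 → cj toSph h ≠ 1 := by
    intro h h1 h2
    exact h1 ((cj toSph).injective (h2.trans (map_one (cj toSph)).symm))
  obtain ⟨H, e⟩ := h _ (cj_mem_G inIdComp_neg) _ (cj_mem_G inIdComp_Bq) (hne _ An_ne_one)
    (hne _ Bq_ne_one)
  obtain ⟨K, hK⟩ := (cj toSph).surjective (H 0)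
  obtain ⟨L, hL⟩ := (cj toSph).surjective (H 1)
  apply not_two_conj K L
  apply (cj toSph).injective
  rw [e]
  simp only [map_mul, map_inv, hK, hL]
  simp [List.ofFn_succ, An]

/-- `N = 3`: the least `n ≥ 1` for which `P(n)` holds is `3`. -/
theorem result : IsLeast {n : ℕ | 1 ≤ n ∧ P Sph n} 3 := by
  refine ⟨⟨by norm_num, P_three⟩, ?_⟩
  rintro n ⟨hn1, hn⟩
  by_contra hcon
  push Not at hcon
  interval_cases n
  · exact not_P_one hn
  · exact not_P_two hn

end Pool.Agent.Results.MP_c6d336_gt.ThreeConjugates
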